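import Pool.Agent.Q54.OD.Tail

set_option autoImplicit false

/-!
# Good orders, for all orders of the stabilisers simultaneously

For every `A` there is `K` such that for large `x` all but `x / log ^ A x` of the integers `n ≤ x` are good for all `s`
simultaneously, with the loss `(s log n) ^ (K log log n)`.
-/

namespace Pool.Agent.Q54.OD

open Finset Real Filter
open Pool.Agent.TH669.AD (big GoodDeg)

/-- the loss -/
noncomputable def loss (K s n : ℕ) : ℝ := ((s : ℝ) * log n) ^ ((K : ℝ) * log (log n))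

/-- good orders -/
def GD (K n : ℕ) : Prop := ∀ s : ℕ, 1 ≤ s → ∃ y : ℕ, s ≤ y ∧ GoodDeg y s (loss K s n) n

lemma GoodDeg.mono {y s t n : ℕ} {U U' : ℝ} (h : GoodDeg y t U n) (hst : s ≤ t) (hU : U ≤ U') : GoodDeg y s U' n :=
  ⟨h.sqf, fun p hp hy d₁ d₂ a b c d => h.cong p hp hy d₁ d₂ a b (c.trans hst) d,
    h.smooth.trans (mul_le_mul_of_nonneg_right hU (Nat.cast_nonneg _))⟩

lemma ll {n : ℕ} (hn : 4 ≤ log (n : ℝ)) : 1 ≤ log (log (n : ℝ)) := by
  have h1 : log (2 ^ 2 : ℝ) ≤ log (log (n : ℝ)) := log_le_log (by norm_num) (by linarith)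
  rw [log_pow] at h1
  have := Real.log_two_gt_d9
  push_cast at h1
  linarith

lemma loss_le {K s t n x : ℕ} (hs : 1 ≤ s) (hst : t ≤ 2 * s) (ht : 1 ≤ t) (hn : 4 ≤ log (n : ℝ)) (hnx : n ≤ x)
    (hx : x ≤ n ^ 2) : exp (K * log (t * log x) * log (log x)) ≤ loss (6 * K + 1) s n := by
  have hs1 : (1 : ℝ) ≤ s := by exact_mod_cast hs
  have ht1 : (1 : ℝ) ≤ t := by exact_mod_cast ht
  have hst' : (t : ℝ) ≤ 2 * s := by exact_mod_cast hst
  have hn0' : 0 < n := by
    rcases Nat.eq_zero_or_pos n with h | h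
    · rw [h] at hn
      simp at hn
      linarith
    · exact h
  have hn0 : (0 : ℝ) < n := by exact_mod_cast hn0'
  have hx0 : (0 : ℝ) < x := by
    have : 0 < x := by omega
    exact_mod_cast this
  have hnx' : log (n : ℝ) ≤ log x := log_le_log hn0 (by exact_mod_cast hnx)
  have h1 : log (x : ℝ) ≤ 2 * log n := by
    have h2 : log (x : ℝ) ≤ log ((n : ℝ) ^ 2) := log_le_log hx0 (by exact_mod_cast hx)
    rw [log_pow] at h2
    exact_mod_cast h2
  have h2 : (4 : ℝ) ≤ s * log n := by nlinarith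
  have h3 : (t : ℝ) * log x ≤ (s * log n) ^ 3 := by
    calc (t : ℝ) * log x ≤ 2 * s * (2 * log n) := mul_le_mul hst' h1 (by linarith) (by positivity)
      _ = 4 * (s * log n) := by ring
      _ ≤ (s * log n) ^ 3 := by nlinarith [sq_nonneg ((s : ℝ) * log n)]
  have h4 : log (t * log x) ≤ 3 * log (s * log n) := by
    have h5 : log (t * log x) ≤ log (((s : ℝ) * log n) ^ 3) := log_le_log (by nlinarith) h3
    rw [log_pow] at h5
    exact_mod_cast h5
  have h5 : log (log x) ≤ 2 * log (log n) := by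
    have h6 : log (log (x : ℝ)) ≤ log (log (n : ℝ) ^ 2) := log_le_log (by linarith) (by nlinarith)
    rw [log_pow] at h6
    exact_mod_cast h6
  have h6 : 0 ≤ log (log (x : ℝ)) := log_nonneg (by linarith)
  have h7 : 0 ≤ log ((s : ℝ) * log n) := log_nonneg (by linarith)
  have h8 := ll hn
  have hK : (0 : ℝ) ≤ K := Nat.cast_nonneg K
  unfold loss
  rw [rpow_def_of_pos (by linarith)]
  apply exp_le_exp.2
  push_cast
  calc (K : ℝ) * log (t * log x) * log (log x) ≤ K * (3 * log (s * log n)) * (2 * log (log n)) := by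
        apply mul_le_mul (mul_le_mul_of_nonneg_left h4 hK) h5 h6 (by positivity)
    _ ≤ log (s * log n) * ((6 * K + 1) * log (log n)) := by
        nlinarith [mul_nonneg h7 (show (0 : ℝ) ≤ log (log (n : ℝ)) by linarith)]

lemma big_s {K s n : ℕ} (hn : 4 ≤ log (n : ℝ)) (hs : n < s) : ∃ y : ℕ, s ≤ y ∧ GoodDeg y s (loss (6 * K + 1) s n) n := by
  have hn0' : 0 < n := by
    rcases Nat.eq_zero_or_pos n with h | h
    · rw [h] at hn
      simp at hn
      linarith
    · exact h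
  refine ⟨s, le_refl _, ?_, ?_, ?_⟩
  · intro p hp hps hpn
    have h1 := Nat.le_of_dvd hn0' hpn
    nlinarith
  · intro p hp hps d₁ d₂ h
    have h1 := Nat.le_of_dvd hn0' ((Dvd.intro _ rfl).trans h)
    omega
  · have h1 : big s n = ∅ := by
      unfold big
      rw [filter_eq_empty_iff]
      intro p hp hps
      have := Nat.le_of_mem_primeFactors hp
      omega
    rw [h1, prod_empty, Nat.cast_one, mul_one]
    have hs1 : (n : ℝ) ≤ s := by exact_mod_cast hs.le
    have hs2 : (1 : ℝ) ≤ s := by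
      have : 1 ≤ s := by omega
      exact_mod_cast this
    have h2 : (s : ℝ) ≤ s * log n := by nlinarith
    unfold loss
    have h3 : (1 : ℝ) ≤ ((6 * K + 1 : ℕ) : ℝ) * log (log n) := by
      have h4 := ll hn
      have hK : (0 : ℝ) ≤ K := Nat.cast_nonneg K
      push_cast
      nlinarith
    calc (n : ℝ) ≤ s * log n := hs1.trans h2
      _ = ((s : ℝ) * log n) ^ (1 : ℝ) := (rpow_one _).symm
      _ ≤ _ := rpow_le_rpow_of_exponent_le (hs2.trans h2) h3

theorem few_all (A : ℕ) : ∃ K x₀ : ℕ, 1 ≤ K ∧ ∀ x : ℕ, x₀ ≤ x →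
    ({n : ℕ | 1 ≤ n ∧ n ≤ x ∧ ¬ GD K n}.ncard : ℝ) ≤ x / log x ^ A := by
  classical
  obtain ⟨K, x₁, hK⟩ := few_log (A + 2)
  have hev : ∀ᶠ Y : ℝ in atTop, 8 ≤ Y ∧ 9 ≤ log Y ∧ Real.sqrt Y ≤ Y / (2 * log Y ^ A) := by
    have h1 : ∀ᶠ Y : ℝ in atTop, 2 * log Y ^ A ≤ Y ^ (1 / 2 : ℝ) := by
      have h := (isLittleO_log_rpow_rpow_atTop (A : ℝ) (show (0 : ℝ) < 1 / 2 by norm_num)).bound
        (show (0 : ℝ) < 1 / 2 by norm_num)
      filter_upwards [h, eventually_ge_atTop (1 : ℝ)] with Y hY hY1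
      rw [Real.norm_of_nonneg (by have := log_nonneg hY1; positivity), Real.norm_of_nonneg (by positivity),
        rpow_natCast] at hY
      linarith
    filter_upwards [h1, eventually_ge_atTop (81 : ℝ), tendsto_log_atTop.eventually_ge_atTop 9] with Y a b c
    refine ⟨by linarith, c, ?_⟩
    rw [← Real.sqrt_eq_rpow] at a
    have hl : 0 < log Y := by linarith
    rw [le_div_iff₀ (by positivity)]
    calc Real.sqrt Y * (2 * log Y ^ A) ≤ Real.sqrt Y * Real.sqrt Y :=
          mul_le_mul_of_nonneg_left a (Real.sqrt_nonneg _)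
      _ = Y := Real.mul_self_sqrt (by linarith)
  obtain ⟨x₀, hx₀⟩ := (tendsto_natCast_atTop_atTop.eventually hev).exists_forall_of_atTop
  refine ⟨6 * K + 1, x₀ + x₁, by omega, fun x hx => ?_⟩
  obtain ⟨g1, g2, g3⟩ := hx₀ x (by omega)
  have hx8 : 8 ≤ x := by exact_mod_cast g1
  have hx0 : (0 : ℝ) < x := by linarith
  have hℓ : 0 < log (x : ℝ) := by linarith
  choose! y hy using fun s (hs : 1 ≤ s) => hK x s (by omega) hs
  have hfin : ∀ s, {n : ℕ | 1 ≤ n ∧ n ≤ x ∧ ¬ GoodDeg (y s) s (exp (K * log (s * log x) * log (log x))) n}.Finite :=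
    fun s => (Set.finite_Icc 1 x).subset fun n hn => ⟨hn.1, hn.2.1⟩
  set B : ℕ → Finset ℕ := fun s => (hfin s).toFinset with hB
  have hBc : ∀ s, 1 ≤ s → s ≤ 2 * x → ((B s).card : ℝ) ≤ 2 * x / log x ^ (A + 2) := by
    intro s hs hsx
    have h := (hy s hs hsx).2
    rwa [Set.ncard_eq_toFinset_card _ (hfin s)] at h
  have hpow : ∀ j ≤ Nat.log 2 x, 2 ^ (j + 1) ≤ 2 * x := by
    intro j hj
    have h1 : 2 ^ j ≤ 2 ^ Nat.log 2 x := Nat.pow_le_pow_right (by norm_num) hj
    have h2 := Nat.pow_log_le_self 2 (show x ≠ 0 by omega)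
    rw [pow_succ]
    omega
  have hsub : {n : ℕ | 1 ≤ n ∧ n ≤ x ∧ ¬ GD (6 * K + 1) n} ⊆
      ((Icc 1 (Nat.sqrt x) ∪ (range (Nat.log 2 x + 1)).biUnion (fun j => B (2 ^ (j + 1))) : Finset ℕ) : Set ℕ) := by
    rintro n ⟨h1, h2, h3⟩
    rw [mem_coe, mem_union]
    by_cases hns : n ≤ Nat.sqrt x
    · exact Or.inl (mem_Icc.2 ⟨h1, hns⟩)
    right
    have hn2 : x ≤ n ^ 2 := by
      have := Nat.sqrt_lt'.1 (not_le.1 hns)
      omega
    have hn0 : (0 : ℝ) < n := by exact_mod_cast h1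
    have hn4 : 4 ≤ log (n : ℝ) := by
      have h4 : log (x : ℝ) ≤ log ((n : ℝ) ^ 2) := log_le_log hx0 (by exact_mod_cast hn2)
      rw [log_pow] at h4
      push_cast at h4
      linarith
    unfold GD at h3
    push Not at h3
    obtain ⟨s, hs, h4⟩ := h3
    have hsn : s ≤ n := by
      by_contra hcon
      obtain ⟨z, hz1, hz2⟩ := big_s (K := K) hn4 (not_le.1 hcon)
      exact h4 z hz1 hz2
    have hlog : Nat.log 2 s ≤ Nat.log 2 x := Nat.log_mono_right (by omega)
    have ht1 : s < 2 ^ (Nat.log 2 s + 1) := Nat.lt_pow_succ_log_self (by norm_num) s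
    have ht2 : 2 ^ (Nat.log 2 s + 1) ≤ 2 * s := by
      have := Nat.pow_log_le_self 2 (show s ≠ 0 by omega)
      rw [pow_succ]
      omega
    have h5 : n ∈ B (2 ^ (Nat.log 2 s + 1)) := by
      rw [hB]
      simp only [Set.Finite.mem_toFinset, Set.mem_ofPred_eq]
      refine ⟨h1, h2, fun hg => ?_⟩
      refine h4 (y (2 ^ (Nat.log 2 s + 1))) ?_ (GoodDeg.mono hg ht1.le
        (loss_le hs ht2 Nat.one_le_two_pow hn4 h2 hn2))
      exact ht1.le.trans (hy _ Nat.one_le_two_pow (hpow _ hlog)).1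
    rw [mem_biUnion]
    exact ⟨Nat.log 2 s, mem_range.2 (by omega), h5⟩
  have h1 : {n : ℕ | 1 ≤ n ∧ n ≤ x ∧ ¬ GD (6 * K + 1) n}.ncard ≤
      Nat.sqrt x + ∑ j ∈ range (Nat.log 2 x + 1), (B (2 ^ (j + 1))).card := by
    calc {n : ℕ | 1 ≤ n ∧ n ≤ x ∧ ¬ GD (6 * K + 1) n}.ncard
        ≤ ((Icc 1 (Nat.sqrt x) ∪ (range (Nat.log 2 x + 1)).biUnion (fun j => B (2 ^ (j + 1))) : Finset ℕ) :
            Set ℕ).ncard := Set.ncard_le_ncard hsub (finite_toSet _)
      _ = (Icc 1 (Nat.sqrt x) ∪ (range (Nat.log 2 x + 1)).biUnion (fun j => B (2 ^ (j + 1)))).card :=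
          Set.ncard_coe_finset _
      _ ≤ (Icc 1 (Nat.sqrt x)).card + ((range (Nat.log 2 x + 1)).biUnion (fun j => B (2 ^ (j + 1)))).card :=
          card_union_le _ _
      _ ≤ _ := by
        rw [Nat.card_Icc, Nat.add_sub_cancel]
        exact Nat.add_le_add_left card_biUnion_le _
  have h2 : ((Nat.sqrt x : ℕ) : ℝ) ≤ x / (2 * log x ^ A) := by
    refine le_trans ?_ g3
    exact Real.nat_sqrt_le_real_sqrt
  have hlog2 : ((Nat.log 2 x : ℕ) : ℝ) ≤ 2 * log x := by
    have h := Nat.pow_log_le_self 2 (show x ≠ 0 by omega)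
    have h3 : ((2 : ℝ) ^ Nat.log 2 x) ≤ x := by exact_mod_cast h
    have h4 := log_le_log (by positivity) h3
    rw [log_pow] at h4
    have := Real.log_two_gt_d9
    have h5 : (0 : ℝ) ≤ Nat.log 2 x := Nat.cast_nonneg _
    nlinarith
  have h3 : ∑ j ∈ range (Nat.log 2 x + 1), ((B (2 ^ (j + 1))).card : ℝ) ≤ x / (2 * log x ^ A) := by
    calc ∑ j ∈ range (Nat.log 2 x + 1), ((B (2 ^ (j + 1))).card : ℝ)
        ≤ ∑ _j ∈ range (Nat.log 2 x + 1), 2 * x / log x ^ (A + 2) := by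
          refine sum_le_sum fun j hj => ?_
          have := mem_range.1 hj
          exact hBc _ Nat.one_le_two_pow (hpow j (by omega))
      _ = (Nat.log 2 x + 1) * (2 * x / log x ^ (A + 2)) := by
          rw [sum_const, card_range, nsmul_eq_mul]
          push_cast
          ring
      _ ≤ (2 * log x + 1) * (2 * x / log x ^ (A + 2)) := by
          apply mul_le_mul_of_nonneg_right _ (by positivity)
          linarith
      _ ≤ x / (2 * log x ^ A) := by
          rw [mul_div_assoc', div_le_div_iff₀ (by positivity) (by positivity)]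
          have h4 : 4 * (2 * log (x : ℝ) + 1) ≤ log x ^ 2 := by nlinarith
          calc (2 * log (x : ℝ) + 1) * (2 * x) * (2 * log x ^ A) = x * log x ^ A * (4 * (2 * log x + 1)) := by ring
            _ ≤ x * log x ^ A * log x ^ 2 := mul_le_mul_of_nonneg_left h4 (by positivity)
            _ = x * log x ^ (A + 2) := by ring
  calc ({n : ℕ | 1 ≤ n ∧ n ≤ x ∧ ¬ GD (6 * K + 1) n}.ncard : ℝ)
      ≤ ((Nat.sqrt x + ∑ j ∈ range (Nat.log 2 x + 1), (B (2 ^ (j + 1))).card : ℕ) : ℝ) := by exact_mod_cast h1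
    _ = (Nat.sqrt x : ℝ) + ∑ j ∈ range (Nat.log 2 x + 1), ((B (2 ^ (j + 1))).card : ℝ) := by push_cast; ring
    _ ≤ x / (2 * log x ^ A) + x / (2 * log x ^ A) := add_le_add h2 h3
    _ = x / log x ^ A := by
        field_simp
        ring

end Pool.Agent.Q54.OD
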