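import Pool.Agent.TH669.AD.Fin
import Pool.Agent.Erdos456.Mertens

set_option autoImplicit false

/-!
# Integers with a large smooth part

The number of the `n ≤ x` whose part composed of the primes `p ≤ y` is larger than `V` is at most
`x V ^ (-1 / log y) exp (11 (C + log log y))`.
-/

namespace Pool.Agent.Q54.OD

open Finset Real
open Pool.Agent.TH669.AD (big GoodDeg)

/-- `m ↦ m ^ (σ - 1)` -/
noncomputable def pw (σ : ℝ) : ℕ →* ℝ where
  toFun m := (m : ℝ) ^ (σ - 1)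
  map_one' := by simp
  map_mul' a b := by
    push_cast
    exact Real.mul_rpow (Nat.cast_nonneg a) (Nat.cast_nonneg b)

lemma pw_apply (σ : ℝ) (m : ℕ) : pw σ m = (m : ℝ) ^ (σ - 1) := rfl

lemma log8 (y : ℕ) (hy : 8 ≤ y) : 2 < log (y : ℝ) := by
  have h1 : log 8 ≤ log (y : ℝ) := log_le_log (by norm_num) (by exact_mod_cast hy)
  have h2 : log 8 = 3 * log 2 := by
    rw [show (8 : ℝ) = 2 ^ 3 by norm_num, log_pow]
    norm_num
  have h3 := Real.log_two_gt_d9
  linarith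

lemma pw_small (y : ℕ) (hy : 8 ≤ y) (p : ℕ) (hp : 2 ≤ p) : pw (1 / log y) p ≤ 3 / 4 := by
  have hl := log8 y hy
  have hp1 : (2 : ℝ) ≤ p := by exact_mod_cast hp
  rw [pw_apply]
  have h1 : (1 / log (y : ℝ) - 1) ≤ -(1 / 2) := by
    have : 1 / log (y : ℝ) ≤ 1 / 2 := one_div_le_one_div_of_le (by norm_num) hl.le
    linarith
  calc (p : ℝ) ^ (1 / log (y : ℝ) - 1) ≤ (p : ℝ) ^ (-(1 / 2) : ℝ) :=
        rpow_le_rpow_of_exponent_le (by linarith) h1
    _ = 1 / Real.sqrt p := by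
        rw [rpow_neg (by linarith), ← Real.sqrt_eq_rpow, one_div]
    _ ≤ 3 / 4 := by
        have h2 : (4 / 3 : ℝ) ≤ Real.sqrt p := by
          apply Real.le_sqrt_of_sq_le
          nlinarith
        calc 1 / Real.sqrt p ≤ 1 / (4 / 3 : ℝ) := one_div_le_one_div_of_le (by norm_num) h2
          _ = 3 / 4 := by norm_num

lemma pw_le (y : ℕ) (hy : 8 ≤ y) (p : ℕ) (hp : 1 ≤ p) (hpy : p ≤ y) : pw (1 / log y) p ≤ 11 / 4 * (p : ℝ)⁻¹ := by
  have hl := log8 y hy
  have hp0 : (0 : ℝ) < p := by exact_mod_cast hp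
  rw [pw_apply, rpow_sub hp0, rpow_one, div_eq_mul_inv]
  apply mul_le_mul_of_nonneg_right _ (by positivity)
  rw [rpow_def_of_pos hp0]
  have h1 : log (p : ℝ) * (1 / log (y : ℝ)) ≤ 1 := by
    rw [mul_one_div, div_le_one (by linarith)]
    exact log_le_log hp0 (by exact_mod_cast hpy)
  have h2 := Real.exp_one_lt_d9
  calc exp (log (p : ℝ) * (1 / log (y : ℝ))) ≤ exp 1 := exp_le_exp.2 h1
    _ ≤ 11 / 4 := by linarith

theorem smooth_sum (y : ℕ) (hy : 8 ≤ y) (F : Finset ℕ) (hF : ∀ m ∈ F, m ∈ Nat.smoothNumbers (y + 1)) :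
    ∑ m ∈ F, (m : ℝ) ^ (1 / log (y : ℝ) - 1) ≤ exp (11 * ∑ p ∈ (Icc 1 y).filter Nat.Prime, (1 : ℝ) / p) := by
  classical
  have hnn : ∀ m : ℕ, 0 ≤ pw (1 / log (y : ℝ)) m := fun m => by
    rw [pw_apply]
    positivity
  obtain ⟨-, h2⟩ := EulerProduct.summable_and_hasSum_smoothNumbers_prod_primesBelow_geometric
    (f := pw (1 / log (y : ℝ))) (fun {p} hp => by
      rw [Real.norm_of_nonneg (hnn p)]
      have := pw_small y hy p hp.two_le
      linarith) (y + 1)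
  have h3 := sum_le_hasSum (F.subtype (fun m => m ∈ Nat.smoothNumbers (y + 1))) (fun i _ => hnn i.1) h2
  rw [Finset.sum_subtype_of_mem (f := fun m => pw (1 / log (y : ℝ)) m) hF] at h3
  refine h3.trans ?_
  have h4 : ∀ p ∈ Nat.primesBelow (y + 1), (1 - pw (1 / log (y : ℝ)) p)⁻¹ ≤ exp (4 * pw (1 / log (y : ℝ)) p) := by
    intro p hp
    have hpp := Nat.prime_of_mem_primesBelow hp
    have h5 := pw_small y hy p hpp.two_le
    have h6 := hnn p
    have h7 := Real.add_one_le_exp (4 * pw (1 / log (y : ℝ)) p)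
    refine le_trans ?_ h7
    rw [inv_le_comm₀ (by linarith) (by linarith), inv_le_iff_one_le_mul₀ (by linarith)]
    nlinarith
  calc ∏ p ∈ Nat.primesBelow (y + 1), (1 - pw (1 / log (y : ℝ)) p)⁻¹
      ≤ ∏ p ∈ Nat.primesBelow (y + 1), exp (4 * pw (1 / log (y : ℝ)) p) := by
        refine prod_le_prod (fun p hp => ?_) h4
        have h5 := pw_small y hy p (Nat.prime_of_mem_primesBelow hp).two_le
        exact inv_nonneg.2 (by linarith)
    _ = exp (4 * ∑ p ∈ Nat.primesBelow (y + 1), pw (1 / log (y : ℝ)) p) := by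
        rw [← Real.exp_sum, mul_sum]
    _ ≤ exp (11 * ∑ p ∈ (Icc 1 y).filter Nat.Prime, (1 : ℝ) / p) := by
        apply exp_le_exp.2
        have h5 : ∑ p ∈ Nat.primesBelow (y + 1), pw (1 / log (y : ℝ)) p ≤
            11 / 4 * ∑ p ∈ (Icc 1 y).filter Nat.Prime, (1 : ℝ) / p := by
          calc ∑ p ∈ Nat.primesBelow (y + 1), pw (1 / log (y : ℝ)) p
              ≤ ∑ p ∈ Nat.primesBelow (y + 1), 11 / 4 * (p : ℝ)⁻¹ := by
                refine sum_le_sum fun p hp => ?_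
                have hpp := Nat.prime_of_mem_primesBelow hp
                have := Nat.lt_of_mem_primesBelow hp
                exact pw_le y hy p hpp.one_lt.le (by omega)
            _ ≤ ∑ p ∈ (Icc 1 y).filter Nat.Prime, 11 / 4 * (p : ℝ)⁻¹ := by
                refine sum_le_sum_of_subset_of_nonneg ?_ fun _ _ _ => by positivity
                intro p hp
                have hpp := Nat.prime_of_mem_primesBelow hp
                have := Nat.lt_of_mem_primesBelow hp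
                rw [mem_filter, mem_Icc]
                exact ⟨⟨hpp.one_lt.le, by omega⟩, hpp⟩
            _ = 11 / 4 * ∑ p ∈ (Icc 1 y).filter Nat.Prime, (1 : ℝ) / p := by
                rw [mul_sum]
                simp only [one_div]
        linarith

open Classical in
theorem smooth_tail (x y : ℕ) (hy : 8 ≤ y) (V : ℝ) (hV : 0 < V) :
    (((Ioc 0 x).filter (fun n => (∀ p : ℕ, p.Prime → y < p → ¬ p ^ 2 ∣ n) ∧
      V * ((∏ p ∈ big y n, p : ℕ) : ℝ) < n)).card : ℝ) ≤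
      x * (V ^ (-(1 / log (y : ℝ))) * exp (11 * ∑ p ∈ (Icc 1 y).filter Nat.Prime, (1 : ℝ) / p)) := by
  classical
  have hl := log8 y hy
  set M := (Ioc 0 x).filter (fun m => m ∈ Nat.smoothNumbers (y + 1) ∧ V < m) with hM
  have hsub : (Ioc 0 x).filter (fun n => (∀ p : ℕ, p.Prime → y < p → ¬ p ^ 2 ∣ n) ∧
      V * ((∏ p ∈ big y n, p : ℕ) : ℝ) < n) ⊆ M.biUnion (fun m => (Ioc 0 x).filter (fun n => m ∣ n)) := by
    intro n hn
    rw [mem_filter] at hn
    obtain ⟨hn1, hsq, hlt⟩ := hn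
    have hn2 := mem_Ioc.1 hn1
    have hP : (∏ p ∈ big y n, p) ∣ n := by
      apply Finset.prod_primes_dvd
      · intro p hp
        exact (Nat.prime_of_mem_primeFactors (mem_filter.1 hp).1).prime
      · intro p hp
        exact Nat.dvd_of_mem_primeFactors (mem_filter.1 hp).1
    obtain ⟨m, hm⟩ := hP
    have hPpos : 0 < ∏ p ∈ big y n, p := prod_pos fun p hp =>
      (Nat.prime_of_mem_primeFactors (mem_filter.1 hp).1).pos
    have hm0 : 0 < m := by
      rcases Nat.eq_zero_or_pos m with h | h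
      · rw [h, mul_zero] at hm
        omega
      · exact h
    rw [mem_biUnion]
    refine ⟨m, ?_, ?_⟩
    · rw [hM, mem_filter, mem_Ioc]
      refine ⟨⟨hm0, ?_⟩, ?_, ?_⟩
      · have : m ≤ n := Nat.le_of_dvd hn2.1 ⟨_, by rw [mul_comm]; exact hm⟩
        omega
      · rw [Nat.mem_smoothNumbers']
        intro q hq hqm
        by_contra hcon
        have hqy : y < q := by omega
        apply hsq q hq hqy
        have hqn : q ∣ n := hm ▸ hqm.mul_left _
        have hqb : q ∈ big y n := by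
          unfold big
          rw [mem_filter, Nat.mem_primeFactors]
          exact ⟨⟨hq, hqn, by omega⟩, hqy⟩
        have hqP : q ∣ ∏ p ∈ big y n, p := dvd_prod_of_mem _ hqb
        rw [hm, sq]
        exact mul_dvd_mul hqP hqm
      · have h1 : (n : ℝ) = ((∏ p ∈ big y n, p : ℕ) : ℝ) * m := by
          rw [← Nat.cast_mul, ← hm]
        have h2 : (0 : ℝ) < ((∏ p ∈ big y n, p : ℕ) : ℝ) := by exact_mod_cast hPpos
        rw [h1, mul_comm V] at hlt
        exact lt_of_mul_lt_mul_left hlt h2.le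
    · rw [mem_filter]
      exact ⟨hn1, ⟨_, by rw [mul_comm]; exact hm⟩⟩
  calc (((Ioc 0 x).filter (fun n => (∀ p : ℕ, p.Prime → y < p → ¬ p ^ 2 ∣ n) ∧
      V * ((∏ p ∈ big y n, p : ℕ) : ℝ) < n)).card : ℝ)
      ≤ ((∑ m ∈ M, ((Ioc 0 x).filter (fun n => m ∣ n)).card : ℕ) : ℝ) := by
        exact_mod_cast (card_le_card hsub).trans card_biUnion_le
    _ ≤ ∑ m ∈ M, (x : ℝ) * (V ^ (-(1 / log (y : ℝ))) * (m : ℝ) ^ (1 / log (y : ℝ) - 1)) := by
        rw [Nat.cast_sum]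
        refine sum_le_sum fun m hm => ?_
        obtain ⟨hm1, hm2, hm3⟩ := mem_filter.1 hm
        have hm0 : (0 : ℝ) < m := by exact_mod_cast (mem_Ioc.1 hm1).1
        rw [Nat.Ioc_filter_dvd_card_eq_div]
        refine Nat.cast_div_le.trans ?_
        rw [div_eq_mul_inv]
        apply mul_le_mul_of_nonneg_left _ (Nat.cast_nonneg x)
        have h1 : (m : ℝ)⁻¹ = (m : ℝ) ^ (-(1 / log (y : ℝ))) * (m : ℝ) ^ (1 / log (y : ℝ) - 1) := by
          rw [← rpow_add hm0, ← rpow_neg_one]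
          congr 1
          ring
        rw [h1]
        apply mul_le_mul_of_nonneg_right _ (by positivity)
        apply rpow_le_rpow_of_nonpos hV hm3.le
        have : 0 < 1 / log (y : ℝ) := by positivity
        linarith
    _ = x * (V ^ (-(1 / log (y : ℝ))) * ∑ m ∈ M, (m : ℝ) ^ (1 / log (y : ℝ) - 1)) := by
        rw [mul_sum, mul_sum]
    _ ≤ x * (V ^ (-(1 / log (y : ℝ))) * exp (11 * ∑ p ∈ (Icc 1 y).filter Nat.Prime, (1 : ℝ) / p)) := by
        apply mul_le_mul_of_nonneg_left _ (Nat.cast_nonneg x)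
        apply mul_le_mul_of_nonneg_left _ (by positivity)
        exact smooth_sum y hy M fun m hm => (mem_filter.1 hm).2.1

/-- few integers are not good -/
theorem few_bad2 (x y s : ℕ) (U : ℝ) (hy : 8 ≤ y) (hs : 0 < s) (hU : 0 < U) :
    ({n : ℕ | 1 ≤ n ∧ n ≤ x ∧ ¬ GoodDeg y s U n}.ncard : ℝ) ≤
      x / y + x * (s : ℝ) ^ 2 * (1 + log (x * s)) / y +
        x * (U ^ (-(1 / log (y : ℝ))) * exp (11 * ∑ p ∈ (Icc 1 y).filter Nat.Prime, (1 : ℝ) / p)) := by
  classical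
  set B1 := (Ioc 0 x).filter (fun n => ∃ p : ℕ, p.Prime ∧ y < p ∧ p ^ 2 ∣ n) with hB1
  set B2 := (Ioc 0 x).filter (fun n => ∃ p d₁ d₂ : ℕ, p.Prime ∧ y < p ∧ p * d₁ ∣ n ∧ 1 ≤ d₂ ∧
      d₂ ≤ s ∧ d₁ * d₂ ≡ 1 [MOD p] ∧ d₁ * d₂ ≠ 1) with hB2
  set B3 := (Ioc 0 x).filter (fun n => (∀ p : ℕ, p.Prime → y < p → ¬ p ^ 2 ∣ n) ∧
      U * ((∏ p ∈ big y n, p : ℕ) : ℝ) < n) with hB3
  have hsub : {n : ℕ | 1 ≤ n ∧ n ≤ x ∧ ¬ GoodDeg y s U n} ⊆ ((B1 ∪ B2 ∪ B3 : Finset ℕ) : Set ℕ) := by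
    rintro n ⟨h1, h2, h3⟩
    have hn : n ∈ Ioc 0 x := mem_Ioc.2 ⟨h1, h2⟩
    rw [mem_coe, mem_union, mem_union]
    by_cases hsq : ∀ p : ℕ, p.Prime → y < p → ¬ p ^ 2 ∣ n
    · by_cases hc : ∀ p : ℕ, p.Prime → y < p → ∀ d₁ d₂, p * d₁ ∣ n → 1 ≤ d₂ → d₂ ≤ s →
          d₁ * d₂ ≡ 1 [MOD p] → d₁ * d₂ = 1
      · right
        rw [hB3, mem_filter]
        refine ⟨hn, hsq, ?_⟩
        by_contra hlt
        exact h3 ⟨hsq, hc, not_lt.1 hlt⟩
      · left
        right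
        push Not at hc
        obtain ⟨p, hp, hyp, d₁, d₂, a1, a2, a3, a4, a5⟩ := hc
        rw [hB2, mem_filter]
        exact ⟨hn, p, d₁, d₂, hp, hyp, a1, a2, a3, a4, a5⟩
    · left
      left
      push Not at hsq
      obtain ⟨p, hp, hyp, a1⟩ := hsq
      rw [hB1, mem_filter]
      exact ⟨hn, p, hp, hyp, a1⟩
  have h1 : {n : ℕ | 1 ≤ n ∧ n ≤ x ∧ ¬ GoodDeg y s U n}.ncard ≤ B1.card + B2.card + B3.card := by
    calc {n : ℕ | 1 ≤ n ∧ n ≤ x ∧ ¬ GoodDeg y s U n}.ncard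
        ≤ ((B1 ∪ B2 ∪ B3 : Finset ℕ) : Set ℕ).ncard := Set.ncard_le_ncard hsub (finite_toSet _)
      _ = (B1 ∪ B2 ∪ B3).card := Set.ncard_coe_finset _
      _ ≤ (B1 ∪ B2).card + B3.card := card_union_le _ _
      _ ≤ _ := by
        have := card_union_le B1 B2
        omega
  have h2 : (B1.card : ℝ) ≤ x / y := by
    convert Pool.Agent.TH669.AD.count1 x y (by omega)
  have h3 : (B2.card : ℝ) ≤ x * (s : ℝ) ^ 2 * (1 + log (x * s)) / y := by
    convert Pool.Agent.TH669.AD.count2 x y s (by omega) hs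
  have h4 : (B3.card : ℝ) ≤ x * (U ^ (-(1 / log (y : ℝ))) * exp (11 * ∑ p ∈ (Icc 1 y).filter Nat.Prime, (1 : ℝ) / p)) := by
    convert smooth_tail x y hy U hU
  calc ({n : ℕ | 1 ≤ n ∧ n ≤ x ∧ ¬ GoodDeg y s U n}.ncard : ℝ)
      ≤ ((B1.card + B2.card + B3.card : ℕ) : ℝ) := by exact_mod_cast h1
    _ = (B1.card : ℝ) + B2.card + B3.card := by push_cast; ring
    _ ≤ _ := by linarith

theorem few_log (A : ℕ) : ∃ K x₀ : ℕ, ∀ x s : ℕ, x₀ ≤ x → 1 ≤ s → s ≤ 2 * x → ∃ y : ℕ, s ≤ y ∧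
    ({n : ℕ | 1 ≤ n ∧ n ≤ x ∧ ¬ GoodDeg y s (exp (K * log (s * log x) * log (log x))) n}.ncard : ℝ) ≤
      2 * x / log x ^ A := by
  obtain ⟨C, hC⟩ := Pool.Agent.Erdos456.Mert.mertens_inv
  set C₁ : ℝ := 11 * (C + log (3 * (A + 4))) with hC₁
  have hev : ∀ᶠ Y : ℝ in Filter.atTop, 8 ≤ Y ∧ C₁ ≤ log (log Y) ∧ 8 ≤ log Y := by
    have h1 : Filter.Tendsto (fun Y : ℝ => log (log Y)) Filter.atTop Filter.atTop :=
      tendsto_log_atTop.comp tendsto_log_atTop
    filter_upwards [Filter.eventually_ge_atTop (8 : ℝ), h1.eventually_ge_atTop C₁,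
      tendsto_log_atTop.eventually_ge_atTop 8] with Y a b c
    exact ⟨a, b, c⟩
  obtain ⟨x₀, hx₀⟩ := (tendsto_natCast_atTop_atTop.eventually hev).exists_forall_of_atTop
  refine ⟨(A + 4) * (A + 12), x₀, fun x s hxx hs hsx => ?_⟩
  obtain ⟨g1, g2, g3⟩ := hx₀ x hxx
  have hx : 8 ≤ x := by exact_mod_cast g1
  have hx0 : (0 : ℝ) < x := by linarith
  have hs1 : (1 : ℝ) ≤ s := by exact_mod_cast hs
  have hsx' : (s : ℝ) ≤ 2 * x := by exact_mod_cast hsx
  have hℓ2 := log8 x hx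
  set ℓ : ℝ := log x with hℓ
  set L : ℝ := (s : ℝ) * ℓ with hL
  have hL2 : 2 < L := by nlinarith
  have hsL : (s : ℝ) ≤ L := by nlinarith
  have hℓL : ℓ ≤ L := by nlinarith
  have hL0 : 0 < L := by linarith
  have hL38 : 8 ≤ L ^ (A + 3) := by
    have h1 : L ^ 3 ≤ L ^ (A + 3) := pow_le_pow_right₀ (by linarith) (by omega)
    have h2 : (2 : ℝ) ^ 3 ≤ L ^ 3 := pow_le_pow_left₀ (by norm_num) hL2.le 3
    norm_num at h2
    linarith
  set y : ℕ := ⌈L ^ (A + 3)⌉₊ with hy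
  have hyle : L ^ (A + 3) ≤ y := Nat.le_ceil _
  have hylt : (y : ℝ) < L ^ (A + 3) + 1 := Nat.ceil_lt_add_one (by positivity)
  have hy8 : 8 ≤ y := by
    have : (8 : ℝ) ≤ y := by linarith
    exact_mod_cast this
  have hy0 : (0 : ℝ) < y := by linarith
  have hyub : (y : ℝ) ≤ L ^ (A + 4) := by
    have h1 : L ^ (A + 4) = L * L ^ (A + 3) := by ring
    rw [h1]
    nlinarith
  have hsy : s ≤ y := by
    have h1 : L ^ 1 ≤ L ^ (A + 3) := pow_le_pow_right₀ (by linarith) (by omega)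
    have : (s : ℝ) ≤ y := by
      rw [pow_one] at h1
      linarith
    exact_mod_cast this
  refine ⟨y, hsy, ?_⟩
  have hlogL : log 2 ≤ log L := log_le_log (by norm_num) hL2.le
  have hl2 := Real.log_two_gt_d9
  have hlogL0 : 0 < log L := by linarith
  have hlogy : log (y : ℝ) ≤ (A + 4) * log L := by
    calc log (y : ℝ) ≤ log (L ^ (A + 4)) := log_le_log hy0 hyub
      _ = _ := by
        rw [log_pow]
        push_cast
        ring
  have hlogy2 := log8 y hy8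
  have hlogLx : log L ≤ 3 * ℓ := by
    have h1 : L ≤ 2 * x * ℓ := by
      rw [hL]
      exact mul_le_mul_of_nonneg_right hsx' (by linarith)
    have h2 : ℓ ≤ x := by
      have := Real.log_le_sub_one_of_pos hx0
      linarith
    have h3 : L ≤ (x : ℝ) ^ 3 := by
      calc L ≤ 2 * x * ℓ := h1
        _ ≤ 2 * x * x := mul_le_mul_of_nonneg_left h2 (by positivity)
        _ ≤ (x : ℝ) ^ 3 := by nlinarith [sq_nonneg (x : ℝ)]
    calc log L ≤ log ((x : ℝ) ^ 3) := log_le_log hL0 h3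
      _ = 3 * ℓ := by
        rw [log_pow]
        norm_num
        rfl
  have hlly : log (log (y : ℝ)) ≤ log (3 * (A + 4)) + log ℓ := by
    rw [← log_mul (by positivity) (by linarith)]
    apply log_le_log (by linarith)
    have h1 : (0 : ℝ) ≤ (A : ℝ) + 4 := by positivity
    nlinarith
  have hS : ∑ p ∈ (Icc 1 y).filter Nat.Prime, (1 : ℝ) / p ≤ C + log (log y) := by
    have := (abs_le.1 (hC y (by omega))).2
    linarith
  have hll0 : 0 < log ℓ := log_pos (by linarith)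
  set K : ℝ := ((((A + 4) * (A + 12) : ℕ)) : ℝ) with hK
  have hmain := few_bad2 x y s (exp (K * log L * log ℓ)) hy8 (by omega) (exp_pos _)
  refine hmain.trans ?_
  -- the first two terms
  have hlogxs : 1 + log (x * s) ≤ ℓ + s := by
    rw [log_mul hx0.ne' (by linarith)]
    have := log_le_sub_one_of_pos (show (0 : ℝ) < s by linarith)
    linarith
  have h12 : 1 + (s : ℝ) ^ 2 * (1 + log (x * s)) ≤ L ^ 3 :=
    Pool.Agent.TH669.AD.aux12 s ℓ (log (x * s)) hs1 hℓ2 hlogxs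
  have hA : (x : ℝ) / y + x * (s : ℝ) ^ 2 * (1 + log (x * s)) / y ≤ x / ℓ ^ A := by
    have h1 : (x : ℝ) / y + x * (s : ℝ) ^ 2 * (1 + log (x * s)) / y =
        x * (1 + (s : ℝ) ^ 2 * (1 + log (x * s))) / y := by ring
    rw [h1, div_le_div_iff₀ hy0 (by positivity)]
    calc (x : ℝ) * (1 + (s : ℝ) ^ 2 * (1 + log (x * s))) * ℓ ^ A ≤ x * L ^ 3 * L ^ A := by
          gcongr
      _ = x * L ^ (A + 3) := by ring
      _ ≤ x * y := mul_le_mul_of_nonneg_left hyle hx0.le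
  -- the third term
  have hB : (exp (K * log L * log ℓ)) ^ (-(1 / log (y : ℝ))) *
      exp (11 * ∑ p ∈ (Icc 1 y).filter Nat.Prime, (1 : ℝ) / p) ≤ 1 / ℓ ^ A := by
    rw [← exp_mul, ← exp_add]
    have h1 : 1 / ℓ ^ A = exp (-(A * log ℓ)) := by
      rw [exp_neg, one_div]
      congr 1
      rw [mul_comm, ← rpow_def_of_pos (by linarith), rpow_natCast]
    rw [h1]
    apply exp_le_exp.2
    have h2 : (A + 12) * log ℓ ≤ K * log L * log ℓ / log y := by
      rw [le_div_iff₀ (by linarith)]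
      have h3 : K = (A + 4) * (A + 12) := by
        rw [hK]
        push_cast
        ring
      rw [h3]
      have h4 : (0 : ℝ) ≤ ((A : ℝ) + 12) * log ℓ := by positivity
      calc ((A : ℝ) + 12) * log ℓ * log y ≤ ((A : ℝ) + 12) * log ℓ * ((A + 4) * log L) :=
            mul_le_mul_of_nonneg_left hlogy h4
        _ = (A + 4) * (A + 12) * log L * log ℓ := by ring
    have h3 : K * log L * log ℓ * -(1 / log (y : ℝ)) = -(K * log L * log ℓ / log y) := by ring
    rw [h3]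
    linarith
  calc (x : ℝ) / y + x * (s : ℝ) ^ 2 * (1 + log (x * s)) / y +
        x * ((exp (K * log L * log ℓ)) ^ (-(1 / log (y : ℝ))) *
          exp (11 * ∑ p ∈ (Icc 1 y).filter Nat.Prime, (1 : ℝ) / p))
      ≤ x / ℓ ^ A + x * (1 / ℓ ^ A) := add_le_add hA (mul_le_mul_of_nonneg_left hB hx0.le)
    _ = 2 * x / ℓ ^ A := by ring

end Pool.Agent.Q54.OD
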