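import Pool.Agent.Q319.DR.One

set_option autoImplicit false

/-!
# Windows at multiples and dilates of almost all real numbers

For a family of properties `P K` such that for each `A` there is `K` with at most `x / log ^ A x` exceptions up to `x`:
the windows of radius `log ^ A N` at the multiples of almost all real numbers, and at the dilates of sequences of
exponential growth.
-/

namespace Pool.Agent.Q54.OD

open Finset Real Filter MeasureTheory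

open Classical in
/-- The number of the `k` with `1 ≤ k ≤ X` for which not all natural numbers `n` at a distance of at most `w` from `k y`
have the property `P`. -/
noncomputable def exceptions (X y w : ℝ) (P : ℕ → Prop) : ℕ :=
  ((Icc 1 ⌊X⌋₊).filter (fun k : ℕ => ∃ n : ℕ, |(n : ℝ) - k * y| ≤ w ∧ ¬ P n)).card

/-- the property has few exceptions -/
def Few (P : ℕ → ℕ → Prop) : Prop :=
  ∀ A : ℕ, ∃ K x₀ : ℕ, ∀ x : ℕ, x₀ ≤ x → ({n : ℕ | 1 ≤ n ∧ n ≤ x ∧ ¬ P K n}.ncard : ℝ) ≤ x / log x ^ A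

/-- windows at the multiples of real numbers -/
def Multiples (P : ℕ → ℕ → Prop) : Prop :=
  ∀ θ : ℝ, 0 < θ → θ < 1 → ∃ κ : ℝ, 0 < κ ∧ ∀ A U : ℕ, ∃ K N₀ : ℕ, ∀ N : ℕ, N₀ ≤ N →
    ∃ E : Set ℝ, MeasurableSet E ∧ volume E ≤ ENNReal.ofReal ((N : ℝ) ^ (1 - θ - κ)) ∧
      ∀ y : ℝ, (N : ℝ) ^ (1 - θ) ≤ y → y ≤ 2 * (N : ℝ) ^ (1 - θ) → y ∉ E →
        (exceptions ((N : ℝ) ^ θ) y (log N ^ A) (P K) : ℝ) ≤ (N : ℝ) ^ θ / log N ^ U

/-- windows at the dilates of sequences -/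
def Dilates (P : ℕ → ℕ → Prop) : Prop :=
  ∀ (A : ℕ) (δ : ℝ), 0 < δ → ∃ K : ℕ, ∀ b : ℕ → ℕ, (∀ᶠ k : ℕ in atTop, exp ((k : ℝ) ^ δ) ≤ b k) →
    ∀ᵐ α : ℝ, 0 < α → ∀ᶠ k : ℕ in atTop, ∀ n : ℕ, |(n : ℝ) - α * b k| ≤ log (b k) ^ A → P K n

lemma ev_scale (B U : ℕ) : ∀ᶠ N : ℕ in atTop, (((B + 1) * N : ℕ) : ℝ) / log ((B + 1) * N : ℕ) ^ (U + 1) ≤ N / log N ^ U := by
  obtain ⟨N₀, h⟩ := Pool.Agent.Q319.DR.scale B U
  filter_upwards [eventually_ge_atTop N₀] with N hN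
  obtain ⟨h1, h2, h3, h4⟩ := h N hN
  refine le_trans ?_ h4
  have h5 : 0 < log (((B + 1) * N : ℕ) : ℝ) := by linarith
  apply div_le_div_of_nonneg_right _ (by positivity)
  have : (0 : ℝ) ≤ (((B + 1) * N : ℕ) : ℝ) := Nat.cast_nonneg _
  linarith

lemma sp (P : ℕ → ℕ → Prop) (h : Few P) (B U : ℕ) : ∃ K N₀ : ℕ, ∀ N : ℕ, N₀ ≤ N → ∀ S : Finset ℕ,
    S ⊆ Icc 1 ((B + 1) * N) → (∀ n ∈ S, ¬ P K n) → (S.card : ℝ) ≤ N / log N ^ U := by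
  obtain ⟨K, x₀, hx⟩ := h (U + 1)
  obtain ⟨N₁, h1⟩ := (ev_scale B U).exists_forall_of_atTop
  refine ⟨K, N₁ + x₀, fun N hN S hS hP => ?_⟩
  refine le_trans ?_ ((hx ((B + 1) * N) (by nlinarith)).trans (h1 N (by omega)))
  have hfin : {n : ℕ | 1 ≤ n ∧ n ≤ (B + 1) * N ∧ ¬ P K n}.Finite :=
    (Set.finite_Icc 1 ((B + 1) * N)).subset fun n hn => ⟨hn.1, hn.2.1⟩
  rw [← Set.ncard_coe_finset]
  apply Nat.cast_le.2
  apply Set.ncard_le_ncard _ hfin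
  intro n hn
  have h2 := mem_Icc.1 (hS hn)
  exact ⟨h2.1, h2.2, hP n hn⟩

theorem multiples (P : ℕ → ℕ → Prop) (h : Few P) : Multiples P := by
  classical
  intro θ hθ hθ1
  obtain ⟨κ, hκ, h1⟩ := Pool.Agent.Q319.DR.mult_one θ hθ hθ1
  refine ⟨κ, hκ, fun A U => ?_⟩
  obtain ⟨K, N₀, h2⟩ := sp P h 3 (U + A + 2)
  obtain ⟨N₁, h3⟩ := h1 A U
  refine ⟨K, N₀ + N₁, fun N hN => ?_⟩
  obtain ⟨E, hE1, hE2, hE3⟩ := h3 N (by omega) (fun n => ¬ P K n) (fun S hS hb => h2 N (by omega) S hS hb)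
  exact ⟨E, hE1, hE2, fun y hy1 hy2 hyE => hE3 y hy1 hy2 hyE⟩

theorem dilates (P : ℕ → ℕ → Prop) (h : Few P) : Dilates P := by
  classical
  intro A δ hδ
  obtain ⟨m, hm⟩ := exists_nat_gt (2 / δ)
  obtain ⟨K, x₀, hx⟩ := h (A + m + 1)
  refine ⟨K, fun b hb => ?_⟩
  have hD : ∀ D : ℕ, ∀ᵐ α : ℝ, 0 < α → α ≤ D → ∀ᶠ k : ℕ in atTop, ∀ q : ℕ,
      |(q : ℝ) - α * b k| ≤ log (b k) ^ A → ¬ (fun _ n => ¬ P K n) (b k) q := by
    intro D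
    refine Pool.Agent.Q319.DR.lac_one (fun _ n => ¬ P K n) A D m δ hδ hm ?_ b hb
    obtain ⟨N₁, h1⟩ := (ev_scale D (A + m)).exists_forall_of_atTop
    refine ⟨N₁ + x₀, fun N hN S hS hP => ?_⟩
    refine le_trans ?_ ((hx ((D + 1) * N) (by nlinarith)).trans (h1 N (by omega)))
    have hfin : {n : ℕ | 1 ≤ n ∧ n ≤ (D + 1) * N ∧ ¬ P K n}.Finite :=
      (Set.finite_Icc 1 ((D + 1) * N)).subset fun n hn => ⟨hn.1, hn.2.1⟩
    rw [← Set.ncard_coe_finset]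
    apply Nat.cast_le.2
    apply Set.ncard_le_ncard _ hfin
    intro n hn
    have h2 := mem_Icc.1 (hS hn)
    exact ⟨h2.1, h2.2, hP n hn⟩
  have hall := ae_all_iff.2 hD
  filter_upwards [hall] with α hα hα0
  obtain ⟨D, hD'⟩ := exists_nat_ge α
  filter_upwards [hα D hα0 hD'] with k hk n hn
  exact not_not.1 (hk n hn)

end Pool.Agent.Q54.OD
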