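import Pool.Agent.Q54.OD.All
import Pool.Agent.Q54.OD.Win

set_option autoImplicit false

/-!
# From good orders to a property with few exceptions
-/

namespace Pool.Agent.Q54.OD

open Finset Real Filter

lemma two_le_loss {K s n : ℕ} (hK : 1 ≤ K) (hs : 1 ≤ s) (hn : 60 ≤ n) : 2 ≤ loss K s n := by
  have hn4 : 4 ≤ log (n : ℝ) := by
    rw [Real.le_log_iff_exp_le (by positivity)]
    have h1 := Real.exp_one_lt_d9
    have h2 : exp 4 = exp 1 ^ 4 := by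
      rw [← exp_nat_mul]
      norm_num
    have h3 : (60 : ℝ) ≤ n := by exact_mod_cast hn
    have h0 : 0 < exp 1 := exp_pos 1
    rw [h2]
    have h4 : exp 1 ^ 4 ≤ 2.7182818286 ^ 4 := pow_le_pow_left₀ h0.le h1.le 4
    norm_num at h4
    linarith
  have h5 := ll hn4
  have hs1 : (1 : ℝ) ≤ s := by exact_mod_cast hs
  have hK1 : (1 : ℝ) ≤ K := by exact_mod_cast hK
  have h6 : (4 : ℝ) ≤ s * log n := by nlinarith
  have h7 : (1 : ℝ) ≤ K * log (log n) := by nlinarith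
  unfold loss
  calc (2 : ℝ) ≤ s * log n := by linarith
    _ = (s * log n) ^ (1 : ℝ) := (rpow_one _).symm
    _ ≤ _ := rpow_le_rpow_of_exponent_le (by linarith) h7

theorem few_of (P : ℕ → ℕ → Prop) (h : ∀ K n : ℕ, 1 ≤ K → 60 ≤ n → GD K n → P K n) : Few P := by
  classical
  intro A
  obtain ⟨K, x₀, hK1, hK⟩ := few_all (A + 1)
  have hev : ∀ᶠ Y : ℝ in atTop, 2 ≤ log Y ∧ 120 * log Y ^ A ≤ Y := by
    filter_upwards [tendsto_log_atTop.eventually_ge_atTop 2, Pool.Agent.Q319.DR.ev_pow 1 one_pos A 120] with Y a b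
    rw [rpow_one] at b
    exact ⟨a, b⟩
  obtain ⟨x₁, hx₁⟩ := (tendsto_natCast_atTop_atTop.eventually hev).exists_forall_of_atTop
  refine ⟨K, x₀ + x₁, fun x hx => ?_⟩
  obtain ⟨g1, g2⟩ := hx₁ x (by omega)
  have h1 := hK x (by omega)
  have hfin : {n : ℕ | 1 ≤ n ∧ n ≤ x ∧ ¬ GD K n}.Finite :=
    (Set.finite_Icc 1 x).subset fun n hn => ⟨hn.1, hn.2.1⟩
  have hsub : {n : ℕ | 1 ≤ n ∧ n ≤ x ∧ ¬ P K n} ⊆ {n : ℕ | 1 ≤ n ∧ n ≤ x ∧ ¬ GD K n} ∪ Set.Icc 1 60 := by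
    rintro n ⟨a, b, c⟩
    by_cases h60 : n ≤ 60
    · exact Or.inr ⟨a, h60⟩
    · exact Or.inl ⟨a, b, fun hg => c (h K n hK1 (by omega) hg)⟩
  have h2 : {n : ℕ | 1 ≤ n ∧ n ≤ x ∧ ¬ P K n}.ncard ≤ {n : ℕ | 1 ≤ n ∧ n ≤ x ∧ ¬ GD K n}.ncard + 60 := by
    refine (Set.ncard_le_ncard hsub (hfin.union (Set.finite_Icc 1 60))).trans ?_
    refine (Set.ncard_union_le _ _).trans ?_
    rw [← Finset.coe_Icc, Set.ncard_coe_finset, Nat.card_Icc]
  have hl : 0 < log (x : ℝ) := by linarith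
  calc ({n : ℕ | 1 ≤ n ∧ n ≤ x ∧ ¬ P K n}.ncard : ℝ)
      ≤ (({n : ℕ | 1 ≤ n ∧ n ≤ x ∧ ¬ GD K n}.ncard + 60 : ℕ) : ℝ) := by exact_mod_cast h2
    _ = ({n : ℕ | 1 ≤ n ∧ n ≤ x ∧ ¬ GD K n}.ncard : ℝ) + 60 := by push_cast; ring
    _ ≤ x / log x ^ (A + 1) + 60 := by linarith
    _ ≤ x / (2 * log x ^ A) + x / (2 * log x ^ A) := by
        apply add_le_add
        · apply div_le_div_of_nonneg_left (Nat.cast_nonneg x) (by positivity)
          rw [pow_succ, mul_comm]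
          exact mul_le_mul_of_nonneg_left g1 (by positivity)
        · rw [le_div_iff₀ (by positivity)]
          linarith
    _ = x / log x ^ A := by
        field_simp
        ring

end Pool.Agent.Q54.OD
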